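import Mathlib
import Pool.Agent.H.MP_cc3311_ag.T1

/-!
# MP_cc3311_ag: the number of simply branched antiderivatives, asymptotic formula for all `n`
-/

set_option autoImplicit false

namespace Pool.Agent.Results.MP_cc3311_ag.AllDegrees

/-- For every `n ≥ 1` there is a constant `c` such that for every finite field `K` with `q` elements
and characteristic larger than `n + 1` the number `N_n(q)` differs from `c_n(q) / q ^ n` by at most
`c * q ^ (n - 1 - ⌊(n + 1) / 4⌋)`, where `c_n` is an explicit polynomial. -/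
theorem result (n : ℕ) (hn : 1 ≤ n) : ∃ c : ℕ, ∀ (K : Type) [Field K] [Fintype K],
    n + 1 < ringChar K →
    |(SBr.N K n : ℝ) - (SBr.cform n (Fintype.card K) : ℝ) / (Fintype.card K : ℝ) ^ n| ≤
      c * (Fintype.card K : ℝ) ^ (n - 1 - (n + 1) / 4) := by
  obtain ⟨c, hc⟩ := SBr.asymptotic n hn
  refine ⟨c, fun K _ _ hK => ?_⟩
  have h1 := hc K hK
  have hq : (0 : ℝ) < (Fintype.card K : ℝ) ^ n := by
    have : (0 : ℝ) < (Fintype.card K : ℝ) := by exact_mod_cast Fintype.card_pos (α := K)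
    positivity
  have h2 : (Fintype.card K : ℝ) ^ (2 * n - 1 - (n + 1) / 4) =
      (Fintype.card K : ℝ) ^ n * (Fintype.card K : ℝ) ^ (n - 1 - (n + 1) / 4) := by
    rw [← pow_add]
    congr 1
    omega
  have h3 : (Fintype.card K : ℝ) ^ n * (SBr.N K n : ℝ) - (SBr.cform n (Fintype.card K) : ℝ) =
      (Fintype.card K : ℝ) ^ n * ((SBr.N K n : ℝ) -
        (SBr.cform n (Fintype.card K) : ℝ) / (Fintype.card K : ℝ) ^ n) := by
    rw [mul_sub, mul_div_cancel₀ _ hq.ne']
  rw [h2, h3, abs_mul, abs_of_pos hq] at h1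
  have h4 : (Fintype.card K : ℝ) ^ n * |(SBr.N K n : ℝ) -
      (SBr.cform n (Fintype.card K) : ℝ) / (Fintype.card K : ℝ) ^ n| ≤
      (Fintype.card K : ℝ) ^ n * (c * (Fintype.card K : ℝ) ^ (n - 1 - (n + 1) / 4)) := by
    refine h1.trans (le_of_eq ?_)
    ring
  exact le_of_mul_le_mul_left h4 hq

end Pool.Agent.Results.MP_cc3311_ag.AllDegrees
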