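import Mathlib
import Pool.Agent.H.MP_cc3311_ag.G0

/-!
# MP_cc3311_ag: the number of simply branched antiderivatives for `n = 5`
-/

set_option autoImplicit false

namespace Pool.Agent.Results.MP_cc3311_ag.ExactFive

/-- For every finite field `K` with `q` elements and characteristic larger than 6,
`N_5(q) = q (q - 1) (q ^ 3 - q ^ 2 + 2 q - 7 - a - b)` with `a` the number of square roots of `-1` in
`K` and `b` the number of cube roots of `2` in `K`. -/
theorem result (K : Type) [Field K] [Fintype K] (hK : 5 + 1 < ringChar K) :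
    (SBr.N K 5 : ℤ) = (Fintype.card K : ℤ) * ((Fintype.card K : ℤ) - 1) *
      ((Fintype.card K : ℤ) ^ 3 - (Fintype.card K : ℤ) ^ 2 + 2 * (Fintype.card K : ℤ) - 7
        - ({x : K | x ^ 2 = -1}.ncard : ℤ) - ({x : K | x ^ 3 = 2}.ncard : ℤ)) :=
  SBr.N_five K (SBr.good_of_ringChar hK)

end Pool.Agent.Results.MP_cc3311_ag.ExactFive
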