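import Mathlib
import Pool.Agent.H.MP_cc3311_ag.G0

/-!
# MP_cc3311_ag: the number of simply branched antiderivatives for `n = 4`
-/

set_option autoImplicit false

namespace Pool.Agent.Results.MP_cc3311_ag.ExactFour

/-- For every finite field `K` with `q` elements and characteristic larger than 5,
`N_4(q) = q (q - 1) (q ^ 2 - q + 2)`. -/
theorem result (K : Type) [Field K] [Fintype K] (hK : 4 + 1 < ringChar K) :
    (SBr.N K 4 : ℤ) = (Fintype.card K : ℤ) * ((Fintype.card K : ℤ) - 1) *
      ((Fintype.card K : ℤ) ^ 2 - (Fintype.card K : ℤ) + 2) :=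
  SBr.N_four K (SBr.good_of_ringChar hK)

end Pool.Agent.Results.MP_cc3311_ag.ExactFour
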