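import Mathlib
import Pool.Agent.H.MP_cc3311_ag.M12

/-!
# MP_cc3311_ag: the first three terms of the number of simply branched antiderivatives
-/

set_option autoImplicit false

namespace Pool.Agent.Results.MP_cc3311_ag.ThreeTerms

/-- For every `n ≥ 4` there is a constant `c` such that for every finite field `K` with `q` elements
and characteristic larger than `n + 1` the number `N_n(q)` differs from
`q ^ n - 2 q ^ (n - 1) + 3 q ^ (n - 2)` by at most `c q ^ (n - 3)`. -/
theorem result (n : ℕ) (hn : 4 ≤ n) : ∃ c : ℤ, ∀ (K : Type) [Field K] [Fintype K],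
    n + 1 < ringChar K →
    |(SBr.N K n : ℤ) - ((Fintype.card K : ℤ) ^ n - 2 * (Fintype.card K : ℤ) ^ (n - 1) +
      3 * (Fintype.card K : ℤ) ^ (n - 2))| ≤ c * (Fintype.card K : ℤ) ^ (n - 3) := by
  obtain ⟨c, hc⟩ := SBr.three_terms n hn
  exact ⟨c, fun K _ _ hK => hc K (SBr.good_of_ringChar hK)⟩

end Pool.Agent.Results.MP_cc3311_ag.ThreeTerms
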